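import Pool.Agent.Lib.MP_455133_co.TR.Rec

/-!
The expected arrival time of a complete graph on `a` vertices in a graph, lower bound by the number
of edges and vertices (`5 ≤ a`).
-/

namespace Pool.Agent.Lib.MP_455133_co.TR

open Finset

/-! ### Real inequalities -/

theorem gr_mono {A y y' : ℝ} (hA : 0 ≤ A) (hy' : A ≤ y')
    (h : y * (y - A) ≤ y' * (y' - A)) : y ≤ y' := by
  by_contra hc
  push Not at hc
  have h1 : 0 < (y - y') * (y + y' - A) := by
    apply mul_pos (by linarith)
    rcases lt_or_eq_of_le hA with h2 | h2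
    · linarith
    · rcases lt_or_eq_of_le hy' with h3 | h3
      · linarith
      · linarith
  nlinarith

theorem gr_ex {A x : ℝ} (hx : 0 ≤ x) : ∃ y : ℝ, A ≤ y ∧ y * (y - A) = x := by
  have h0 : 0 ≤ A ^ 2 + 4 * x := by positivity
  have h1 : Real.sqrt (A ^ 2 + 4 * x) * Real.sqrt (A ^ 2 + 4 * x) = A ^ 2 + 4 * x :=
    Real.mul_self_sqrt h0
  have h2 : A ≤ Real.sqrt (A ^ 2 + 4 * x) := by
    apply Real.le_sqrt_of_sq_le
    linarith
  refine ⟨(A + Real.sqrt (A ^ 2 + 4 * x)) / 2, by linarith, ?_⟩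
  nlinarith

theorem gr_tan {A y z : ℝ} (hA : 0 < A) (hy : A ≤ y) (hz : A ≤ z) :
    1 / (z + 1) - 2 * (y * (y - A) - z * (z - A)) / (2 * ((z + 1) ^ 2 * (2 * z - A))) ≤ 1 / (y + 1) := by
  obtain ⟨q, rfl⟩ : ∃ q, A = 2 * z - q := ⟨2 * z - A, by ring⟩
  have e : 2 * z - (2 * z - q) = q := by ring
  have h1 : 0 < z + 1 := by linarith
  have h2 : 0 < y + 1 := by linarith
  have h3 : 0 < q := by linarith
  rw [e]
  have h4 : 1 / (y + 1) - (1 / (z + 1) - 2 * (y * (y - (2 * z - q)) - z * (z - (2 * z - q))) /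
      (2 * ((z + 1) ^ 2 * q))) =
      (y - z) ^ 2 * (y + 1 + q) / ((z + 1) ^ 2 * (y + 1) * q) := by
    field_simp
    ring
  have h5 : 0 ≤ (y - z) ^ 2 * (y + 1 + q) / ((z + 1) ^ 2 * (y + 1) * q) := by
    apply div_nonneg
    · apply mul_nonneg (sq_nonneg _)
      linarith
    · positivity
  linarith

/-- The key inequality. -/
theorem gr_key {A y N : ℝ} (hA : 4 ≤ A) (hy : A ≤ y) (hyN : y ≤ N) :
    (N - 2) * (y * (y - A)) - (A - 1) * N ≤
      N * ((N * y - 1) / (N + 1) * ((N * y - 1) / (N + 1) - A)) := by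
  have hN : 0 < N + 1 := by linarith
  have h1 : N * ((N * y - 1) / (N + 1) * ((N * y - 1) / (N + 1) - A)) -
      ((N - 2) * (y * (y - A)) - (A - 1) * N) =
      (N - y) * ((A - 1) * ((N + 1) * (N + 2)) - 3 * y * (N + 1) + N + y + 2) / (N + 1) ^ 2 := by
    field_simp
    ring
  have h2 : 0 ≤ (N - y) * ((A - 1) * ((N + 1) * (N + 2)) - 3 * y * (N + 1) + N + y + 2) /
      (N + 1) ^ 2 := by
    apply div_nonneg _ (by positivity)
    apply mul_nonneg (by linarith)
    have h3 : 3 * ((N + 1) * (N + 2)) ≤ (A - 1) * ((N + 1) * (N + 2)) := by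
      apply mul_le_mul_of_nonneg_right (by linarith)
      nlinarith
    nlinarith
  linarith

/-! ### Graphs -/

section
variable {V : Type*} [DecidableEq V] (E : V → V → Prop) [DecidableRel E]

/-- The degree in `X`. -/
def dg (X : Finset V) (x : V) : ℕ := (X.filter (E x)).card

/-- Twice the number of edges in `X`. -/
def ee (X : Finset V) : ℕ := ∑ x ∈ X, dg E X x

/-- A complete set. -/
def Cpl (K : Finset V) : Prop := ∀ x ∈ K, ∀ y ∈ K, x ≠ y → E x y

/-- The set `X` contains a complete set with `a` elements. -/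
def HasK (a : ℕ) (X : Finset V) : Prop := ∃ K ⊆ X, K.card = a ∧ Cpl E K

/-- Every element of `X` is in a complete set with `a` elements. -/
def Sat (a : ℕ) (X : Finset V) : Prop := ∀ x ∈ X, ∃ K ⊆ X, x ∈ K ∧ K.card = a ∧ Cpl E K

open Classical in
/-- The elements of `X` which are in a complete set with `a` elements. -/
noncomputable def cov (a : ℕ) (X : Finset V) : Finset V :=
  X.filter fun x => ∃ K ⊆ X, x ∈ K ∧ K.card = a ∧ Cpl E K

variable {E}

omit [DecidableRel E] in
theorem cov_sub (a : ℕ) (X : Finset V) : cov E a X ⊆ X := by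
  classical
  exact Finset.filter_subset _ X

omit [DecidableRel E] in
theorem sub_cov {a : ℕ} {X K : Finset V} (hK : K ⊆ X) (hc : K.card = a) (hC : Cpl E K) :
    K ⊆ cov E a X := by
  classical
  intro x hx
  unfold cov
  rw [Finset.mem_filter]
  exact ⟨hK hx, K, hK, hx, hc, hC⟩

omit [DecidableRel E] in
theorem sat_cov (a : ℕ) (X : Finset V) : Sat E a (cov E a X) := by
  classical
  intro x hx
  have hx' := hx
  unfold cov at hx
  rw [Finset.mem_filter] at hx
  obtain ⟨_, K, hK, hxK, hc, hC⟩ := hx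
  exact ⟨K, sub_cov hK hc hC, hxK, hc, hC⟩

omit [DecidableEq V] [DecidableRel E] in
theorem hasK_empty {a : ℕ} (ha : 1 ≤ a) : ¬ HasK E a (∅ : Finset V) := by
  rintro ⟨K, hK, hc, _⟩
  rw [Finset.subset_empty] at hK
  subst hK
  rw [Finset.card_empty] at hc
  omega

omit [DecidableRel E] in
theorem rr_cov {a : ℕ} (ha : 1 ≤ a) (X : Finset V) :
    rr (HasK E a) X = rr (HasK E a) (cov E a X) := by
  refine rr_sub (hasK_empty ha) _ X (cov_sub a X) rfl fun Y hY => ?_
  constructor
  · rintro ⟨K, hK, hc, hC⟩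
    exact ⟨K, Finset.subset_inter hK (sub_cov (hK.trans hY) hc hC), hc, hC⟩
  · rintro ⟨K, hK, hc, hC⟩
    exact ⟨K, hK.trans Finset.inter_subset_left, hc, hC⟩

theorem dg_le (hi : ∀ x, ¬ E x x) {X : Finset V} {x : V} (hx : x ∈ X) : dg E X x + 1 ≤ X.card := by
  unfold dg
  have h1 : X.filter (E x) ⊆ X.erase x := by
    intro y hy
    rw [Finset.mem_filter] at hy
    rw [Finset.mem_erase]
    refine ⟨?_, hy.1⟩
    rintro rfl
    exact hi _ hy.2
  have h2 := Finset.card_le_card h1
  rw [Finset.card_erase_of_mem hx] at h2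
  have h3 : 0 < X.card := Finset.card_pos.2 ⟨x, hx⟩
  omega

theorem le_dg {a : ℕ} {X : Finset V} (h : Sat E a X) {x : V} (hx : x ∈ X) : a ≤ dg E X x + 1 := by
  obtain ⟨K, hK, hxK, hc, hC⟩ := h x hx
  unfold dg
  have h1 : K.erase x ⊆ X.filter (E x) := by
    intro y hy
    rw [Finset.mem_erase] at hy
    rw [Finset.mem_filter]
    exact ⟨hK hy.2, hC x hxK y hy.2 (Ne.symm hy.1)⟩
  have h2 := Finset.card_le_card h1
  rw [Finset.card_erase_of_mem hxK, hc] at h2
  omega

theorem dg_erase_ge {X : Finset V} {x u : V} : dg E X x ≤ dg E (X.erase u) x + 1 := by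
  unfold dg
  have h1 : (X.erase u).filter (E x) = (X.filter (E x)).erase u := by
    ext y
    simp only [Finset.mem_filter, Finset.mem_erase]
    tauto
  rw [h1]
  have h2 := Finset.pred_card_le_card_erase (s := X.filter (E x)) (a := u)
  omega

theorem ee_erase (hs : ∀ x y, E x y → E y x) (hi : ∀ x, ¬ E x x) {X : Finset V} {u : V}
    (hu : u ∈ X) : ee E (X.erase u) + 2 * dg E X u = ee E X := by
  have h1 : ∀ x ∈ X.erase u, dg E (X.erase u) x + (if E u x then 1 else 0) = dg E X x := by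
    intro x hx
    unfold dg
    have h2 : (X.erase u).filter (E x) = (X.filter (E x)).erase u := by
      ext y
      simp only [Finset.mem_filter, Finset.mem_erase]
      tauto
    rw [h2]
    by_cases h3 : E u x
    · rw [if_pos h3]
      exact Finset.card_erase_add_one (Finset.mem_filter.2 ⟨hu, hs _ _ h3⟩)
    · rw [if_neg h3, add_zero, Finset.erase_eq_of_notMem]
      intro h4
      exact h3 (hs _ _ (Finset.mem_filter.1 h4).2)
  have h2 : ∑ x ∈ X.erase u, (if E u x then 1 else 0) = dg E X u := by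
    unfold dg
    rw [← Finset.card_filter]
    congr 1
    ext y
    rw [Finset.mem_filter, Finset.mem_filter, Finset.mem_erase]
    constructor
    · rintro ⟨⟨_, h3⟩, h4⟩
      exact ⟨h3, h4⟩
    · rintro ⟨h3, h4⟩
      refine ⟨⟨?_, h3⟩, h4⟩
      rintro rfl
      exact hi _ h4
  unfold ee
  rw [← Finset.add_sum_erase X (dg E X) hu, ← Finset.sum_congr rfl h1, Finset.sum_add_distrib, h2]
  omega

theorem ee_sub {m : ℕ} {X C : Finset V} (hC : C ⊆ X) (h : ∀ x ∈ X, m ≤ dg E X x) :
    ee E C + m * (X.card - C.card) ≤ ee E X := by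
  unfold ee
  rw [← Finset.sum_sdiff hC, add_comm]
  apply Nat.add_le_add
  · have h1 : ∑ x ∈ X \ C, m ≤ ∑ x ∈ X \ C, dg E X x :=
      Finset.sum_le_sum fun x hx => h x (Finset.mem_sdiff.1 hx).1
    rw [Finset.sum_const, Finset.card_sdiff_of_subset hC, smul_eq_mul, mul_comm] at h1
    exact h1
  · refine Finset.sum_le_sum fun x _ => ?_
    exact Finset.card_le_card (Finset.filter_subset_filter _ hC)

theorem ee_mono {X C : Finset V} (hC : C ⊆ X) : ee E C ≤ ee E X := by
  have h1 := ee_sub (E := E) (m := 0) hC fun _ _ => Nat.zero_le _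
  omega

/-- The lower bound for the expected arrival time. -/
theorem claim (hs : ∀ x y, E x y → E y x) (hi : ∀ x, ¬ E x x) {a : ℕ} (ha : 5 ≤ a) :
    ∀ (m : ℕ) (X : Finset V), X.card = m → X.Nonempty → Sat E a X → ∀ y : ℝ, (a : ℝ) - 1 ≤ y →
      (ee E X : ℝ) - ((a : ℝ) - 2) * X.card = y * (y - ((a : ℝ) - 1)) →
        (a : ℝ) / (y + 1) ≤ rr (HasK E a) X := by
  intro m
  induction m using Nat.strong_induction_on with
  | _ m ih =>
  intro X hXm hne hsat y hy hey
  have haR : (5 : ℝ) ≤ a := by exact_mod_cast ha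
  obtain ⟨A, hA⟩ : ∃ A : ℝ, A = (a : ℝ) - 1 := ⟨_, rfl⟩
  obtain ⟨N, hN⟩ : ∃ N : ℝ, N = (X.card : ℝ) := ⟨_, rfl⟩
  have hA4 : 4 ≤ A := by linarith
  have ha1 : 1 ≤ a := by omega
  rw [← hA] at hy hey
  rw [← hN] at hey
  have hQ : HasK E a X := by
    obtain ⟨x, hx⟩ := hne
    obtain ⟨K, hK, _, hc, hC⟩ := hsat x hx
    exact ⟨K, hK, hc, hC⟩
  have haN : A + 1 ≤ N := by
    obtain ⟨K, hK, hc, hC⟩ := hQ
    have h1 := Finset.card_le_card hK
    rw [hc] at h1
    have h2 : (a : ℝ) ≤ (X.card : ℝ) := by exact_mod_cast h1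
    linarith
  have hlow : A * N ≤ (ee E X : ℝ) := by
    have h1 : ∑ x ∈ X, (a - 1) ≤ ∑ x ∈ X, dg E X x :=
      Finset.sum_le_sum fun x hx => by
        have := le_dg hsat hx
        omega
    rw [Finset.sum_const, smul_eq_mul] at h1
    have h2 : ((X.card * (a - 1) : ℕ) : ℝ) ≤ (ee E X : ℝ) := by
      unfold ee
      exact_mod_cast h1
    push_cast [Nat.cast_sub ha1] at h2
    rw [hA, hN]
    linarith
  have hupp : (ee E X : ℝ) ≤ N * (N - 1) := by
    have h1 : ∑ x ∈ X, dg E X x ≤ ∑ x ∈ X, (X.card - 1) :=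
      Finset.sum_le_sum fun x hx => by
        have := dg_le hi hx
        omega
    rw [Finset.sum_const, smul_eq_mul] at h1
    have h0 : 1 ≤ X.card := Finset.card_pos.2 hne
    have h2 : (ee E X : ℝ) ≤ ((X.card * (X.card - 1) : ℕ) : ℝ) := by
      unfold ee
      exact_mod_cast h1
    push_cast [Nat.cast_sub h0] at h2
    rw [hN]
    exact h2
  have hAa : (a : ℝ) - 2 = A - 1 := by linarith
  rw [hAa] at hey
  -- `A + 1 ≤ y ≤ N`
  have hyN : y ≤ N := by
    refine gr_mono (A := A) (by linarith) (by linarith) ?_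
    rw [← hey]
    nlinarith
  have hyA : A + 1 ≤ y := by
    refine gr_mono (A := A) (by linarith) hy ?_
    rw [← hey]
    nlinarith
  obtain ⟨z, hz⟩ : ∃ z : ℝ, z = (N * y - 1) / (N + 1) := ⟨_, rfl⟩
  have hN1 : 0 < N + 1 := by linarith
  have hzA : A ≤ z := by
    rw [hz, le_div_iff₀ hN1]
    nlinarith
  have hz1 : z + 1 = N * (y + 1) / (N + 1) := by
    rw [hz]
    field_simp
    ring
  -- the pieces
  have hpiece : ∀ u ∈ X, ∃ w : ℝ, A ≤ w ∧
      w * (w - A) = (ee E (X.erase u) : ℝ) - (A - 1) * (N - 1) ∧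
      (a : ℝ) / (w + 1) ≤ rr (HasK E a) (X.erase u) := by
    intro u hu
    have hcard : ((X.erase u).card : ℝ) = N - 1 := by
      rw [Finset.card_erase_of_mem hu, Nat.cast_sub (Finset.card_pos.2 hne), hN]
      push_cast
      ring
    have hdeg : ∀ x ∈ X.erase u, a - 2 ≤ dg E (X.erase u) x := by
      intro x hx
      have h1 := le_dg hsat (Finset.mem_of_mem_erase hx)
      have h2 := dg_erase_ge (E := E) (X := X) (x := x) (u := u)
      omega
    have hnn : ∀ C ⊆ X.erase u, (ee E C : ℝ) - (A - 1) * C.card ≤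
        (ee E (X.erase u) : ℝ) - (A - 1) * (N - 1) := by
      intro C hC
      have h1 := ee_sub (E := E) hC hdeg
      have h2 := Finset.card_le_card hC
      have h3 : ((ee E C + (a - 2) * ((X.erase u).card - C.card) : ℕ) : ℝ) ≤
          (ee E (X.erase u) : ℝ) := by exact_mod_cast h1
      push_cast [Nat.cast_sub h2, Nat.cast_sub (by omega : 2 ≤ a)] at h3
      rw [hcard, hAa] at h3
      nlinarith
    have h0 : 0 ≤ (ee E (X.erase u) : ℝ) - (A - 1) * (N - 1) := by
      have h1 := hnn ∅ (Finset.empty_subset _)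
      have h2 : ee E (∅ : Finset V) = 0 := rfl
      rw [h2, Finset.card_empty] at h1
      simpa using h1
    obtain ⟨w, hw, hww⟩ := gr_ex (A := A) h0
    refine ⟨w, hw, hww, ?_⟩
    by_cases hc : (cov E a (X.erase u)).Nonempty
    · rw [rr_cov ha1]
      have hsat' := sat_cov (E := E) a (X.erase u)
      have hC := cov_sub (E := E) a (X.erase u)
      have hlow' : 0 ≤ (ee E (cov E a (X.erase u)) : ℝ) -
          (A - 1) * (cov E a (X.erase u)).card := by
        have h1 : ∑ x ∈ cov E a (X.erase u), (a - 1) ≤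
            ∑ x ∈ cov E a (X.erase u), dg E (cov E a (X.erase u)) x :=
          Finset.sum_le_sum fun x hx => by
            have := le_dg hsat' hx
            omega
        rw [Finset.sum_const, smul_eq_mul] at h1
        have h2 : (((cov E a (X.erase u)).card * (a - 1) : ℕ) : ℝ) ≤
            (ee E (cov E a (X.erase u)) : ℝ) := by
          unfold ee
          exact_mod_cast h1
        push_cast [Nat.cast_sub ha1] at h2
        have h3 : (0 : ℝ) ≤ ((cov E a (X.erase u)).card : ℝ) := by positivity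
        rw [hA]
        nlinarith
      obtain ⟨w', hw', hww'⟩ := gr_ex (A := A) hlow'
      have hlt : (cov E a (X.erase u)).card < m := by
        have h1 := Finset.card_le_card hC
        rw [Finset.card_erase_of_mem hu] at h1
        have h2 : 0 < X.card := Finset.card_pos.2 hne
        omega
      have h1 := ih _ hlt (cov E a (X.erase u)) rfl hc hsat' w' (by rw [← hA]; exact hw')
        (by rw [hAa, ← hA]; exact hww'.symm)
      have h2 : w' ≤ w := by
        refine gr_mono (A := A) (by linarith) hw ?_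
        rw [hww, hww']
        exact hnn _ hC
      refine le_trans ?_ h1
      apply div_le_div_of_nonneg_left (by positivity) (by linarith)
      linarith
    · have hnot : ¬ HasK E a (X.erase u) := by
        rintro ⟨K, hK, hKc, hKC⟩
        apply hc
        have h1 := sub_cov hK hKc hKC
        have h2 : K.Nonempty := by
          rw [← Finset.card_pos]
          omega
        exact h2.mono h1
      rw [rr_not hnot, div_le_one (by linarith)]
      linarith
  choose! w hw hww hwr using hpiece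
  -- summation
  have hrec := rr_rec (hasK_empty (E := E) ha1) hQ
  rw [← hN] at hrec
  obtain ⟨D, hD⟩ : ∃ D : ℝ, D = 2 * ((z + 1) ^ 2 * (2 * z - A)) := ⟨_, rfl⟩
  have hD0 : 0 < D := by
    rw [hD]
    have h1 : 0 < z + 1 := by linarith
    have h2 : 0 < 2 * z - A := by linarith
    positivity
  have hsum1 : ∑ u ∈ X, (1 / (z + 1) - 2 * (w u * (w u - A) - z * (z - A)) / D) ≤
      ∑ u ∈ X, 1 / (w u + 1) := by
    refine Finset.sum_le_sum fun u hu => ?_
    rw [hD]
    exact gr_tan (by linarith) (hw u hu) hzA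
  have hsum2 : ∑ u ∈ X, (w u * (w u - A) - z * (z - A)) ≤ 0 := by
    rw [Finset.sum_sub_distrib, Finset.sum_const, nsmul_eq_mul, ← hN,
      Finset.sum_congr rfl fun u hu => hww u hu, Finset.sum_sub_distrib, Finset.sum_const,
      nsmul_eq_mul, ← hN]
    have h1 : ∑ u ∈ X, (ee E (X.erase u) : ℝ) = N * ee E X - 2 * ee E X := by
      have h2 : ∀ u ∈ X, (ee E (X.erase u) : ℝ) = ee E X - 2 * dg E X u := by
        intro u hu
        have h3 := ee_erase hs hi hu
        have h4 : ((ee E (X.erase u) + 2 * dg E X u : ℕ) : ℝ) = ee E X := by exact_mod_cast h3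
        push_cast at h4
        linarith
      rw [Finset.sum_congr rfl h2, Finset.sum_sub_distrib, Finset.sum_const, nsmul_eq_mul, ← hN,
        ← Finset.mul_sum]
      congr 2
      unfold ee
      push_cast
      rfl
    rw [h1]
    have h2 := gr_key hA4 hy hyN
    rw [← hz] at h2
    have h3 : (ee E X : ℝ) = y * (y - A) + (A - 1) * N := by linarith
    rw [h3]
    nlinarith
  have hsum3 : N / (z + 1) ≤ ∑ u ∈ X, 1 / (w u + 1) := by
    refine le_trans ?_ hsum1
    rw [Finset.sum_sub_distrib, Finset.sum_const, nsmul_eq_mul, ← hN, ← Finset.sum_div,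
      ← Finset.mul_sum]
    have h1 : 2 * ∑ u ∈ X, (w u * (w u - A) - z * (z - A)) / D ≤ 0 := by
      rw [← Finset.sum_div]
      have := div_nonpos_of_nonpos_of_nonneg hsum2 hD0.le
      linarith
    have h2 : (2 * ∑ u ∈ X, (w u * (w u - A) - z * (z - A))) / D ≤ 0 := by
      apply div_nonpos_of_nonpos_of_nonneg _ hD0.le
      linarith
    have h3 : N * (1 / (z + 1)) = N / (z + 1) := by ring
    rw [h3]
    linarith
  have hsum4 : (a : ℝ) * (N / (z + 1)) ≤ (N + 1) * rr (HasK E a) X := by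
    rw [hrec]
    have h1 : ∑ u ∈ X, (a : ℝ) / (w u + 1) ≤ ∑ u ∈ X, rr (HasK E a) (X.erase u) :=
      Finset.sum_le_sum fun u hu => hwr u hu
    refine le_trans ?_ h1
    have h2 : ∑ u ∈ X, (a : ℝ) / (w u + 1) = a * ∑ u ∈ X, 1 / (w u + 1) := by
      rw [Finset.mul_sum]
      refine Finset.sum_congr rfl fun u _ => ?_
      ring
    rw [h2]
    exact mul_le_mul_of_nonneg_left hsum3 (by positivity)
  have h5 : (a : ℝ) * (N / (z + 1)) = (N + 1) * (a / (y + 1)) := by
    rw [hz1]
    have h6 : N ≠ 0 := by linarith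
    have h7 : y + 1 ≠ 0 := by linarith
    field_simp
  rw [h5] at hsum4
  exact le_of_mul_le_mul_left hsum4 hN1

end

end Pool.Agent.Lib.MP_455133_co.TR
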