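import Pool.Agent.Lib.MP_455133_co.Blocks
import Pool.Agent.Lib.MP_455133_co.TR.Graph

/-!
Three-uniform shadows: the lower bound for all `q` and the exact value when `s - 1` divides `t - 1`.
-/

namespace Pool.Agent.Lib.MP_455133_co.TR

open Finset

/-! ### The chord -/

theorem th_chord {A y : ℝ} {N y0 : ℕ} (hA : 4 ≤ A) (hy : A ≤ y) (hyN : y ≤ N) (hy0 : 1 ≤ y0) :
    (A + 1) / ((y0 : ℝ) + 1) - (A + 1) * ((y * (y - A) + (A - 1) * N) - (y0 : ℝ) * ((y0 : ℝ) - 1)) /
      (2 * (y0 : ℝ) * ((y0 : ℝ) + 1) * ((y0 : ℝ) + 2)) ≤ (A + 1) / (y + 1) := by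
  have h0 : (1 : ℝ) ≤ y0 := by exact_mod_cast hy0
  obtain ⟨Y, hY⟩ : ∃ Y : ℝ, Y = (y0 : ℝ) := ⟨_, rfl⟩
  rw [← hY] at h0 ⊢
  have h1 : 0 < Y := by linarith
  have h2 : 0 < Y + 1 := by linarith
  have h3 : 0 < Y + 2 := by linarith
  have h4 : 0 < y + 1 := by linarith
  have key : 0 ≤ (y - Y) * (y - Y - 1) * (2 * Y + 1 + y) + (A - 1) * (N - y) * (y + 1) := by
    have h5 : 0 ≤ (A - 1) * ((N : ℝ) - y) * (y + 1) := by
      apply mul_nonneg (mul_nonneg (by linarith) (by linarith)) h4.le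
    rcases le_or_gt y Y with h6 | h6
    · have h7 : 0 ≤ (Y - y) * (Y - y + 1) * (2 * Y + 1 + y) := by
        apply mul_nonneg (mul_nonneg (by linarith) (by linarith)) (by linarith)
      nlinarith
    · rcases le_or_gt (Y + 1) y with h8 | h8
      · have h7 : 0 ≤ (y - Y) * (y - Y - 1) * (2 * Y + 1 + y) := by
          apply mul_nonneg (mul_nonneg (by linarith) (by linarith)) (by linarith)
        linarith
      · -- `Y < y < Y + 1 ≤ N`
        have h9 : Y + 1 ≤ (N : ℝ) := by
          have h10 : y0 < N := by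
            have : (y0 : ℝ) < N := by rw [← hY]; linarith
            exact_mod_cast this
          rw [hY]
          exact_mod_cast h10
        have h10 : (A - 1) * (Y + 1 - y) * (y + 1) ≤ (A - 1) * ((N : ℝ) - y) * (y + 1) := by
          apply mul_le_mul_of_nonneg_right _ h4.le
          apply mul_le_mul_of_nonneg_left _ (by linarith)
          linarith
        have h11 : 3 * ((Y + 1 - y) * (y + 1)) ≤ (A - 1) * (Y + 1 - y) * (y + 1) := by
          have : 0 ≤ (Y + 1 - y) * (y + 1) := mul_nonneg (by linarith) h4.le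
          nlinarith
        have h12 : 0 ≤ (Y + 1 - y) * (3 * (y + 1) - (y - Y) * (2 * Y + 1 + y)) := by
          apply mul_nonneg (by linarith)
          nlinarith
        nlinarith
  have h5 : (A + 1) / (y + 1) - ((A + 1) / (Y + 1) - (A + 1) * ((y * (y - A) + (A - 1) * N) -
      Y * (Y - 1)) / (2 * Y * (Y + 1) * (Y + 2))) =
      (A + 1) * ((y - Y) * (y - Y - 1) * (2 * Y + 1 + y) + (A - 1) * (N - y) * (y + 1)) /
        (2 * Y * (Y + 1) * (Y + 2) * (y + 1)) := by
    field_simp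
    ring
  have h6 : 0 ≤ (A + 1) * ((y - Y) * (y - Y - 1) * (2 * Y + 1 + y) + (A - 1) * (N - y) * (y + 1)) /
        (2 * Y * (Y + 1) * (Y + 2) * (y + 1)) := by
    apply div_nonneg
    · exact mul_nonneg (by linarith) key
    · positivity
  linarith

section
variable {V : Type*} [DecidableEq V] {E : V → V → Prop} [DecidableRel E]

/-- The linear lower bound for every graph. -/
theorem th_vertex (hs : ∀ x y, E x y → E y x) (hi : ∀ x, ¬ E x x) {a y0 : ℕ} (ha : 5 ≤ a)
    (hy0 : 3 * a ≤ 2 * (y0 + 2)) (X : Finset V) :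
    (a : ℝ) / ((y0 : ℝ) + 1) - (a : ℝ) * ((ee E X : ℝ) - (y0 : ℝ) * ((y0 : ℝ) - 1)) /
      (2 * (y0 : ℝ) * ((y0 : ℝ) + 1) * ((y0 : ℝ) + 2)) ≤ rr (HasK E a) X := by
  have haR : (5 : ℝ) ≤ a := by exact_mod_cast ha
  have hy1 : 1 ≤ y0 := by omega
  have hYR : (1 : ℝ) ≤ y0 := by exact_mod_cast hy1
  have hden : 0 < 2 * (y0 : ℝ) * ((y0 : ℝ) + 1) * ((y0 : ℝ) + 2) := by positivity
  by_cases hc : (cov E a X).Nonempty
  · rw [rr_cov (by omega)]
    have hsat := sat_cov (E := E) a X
    have hC := cov_sub (E := E) a X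
    have hlow : 0 ≤ (ee E (cov E a X) : ℝ) - ((a : ℝ) - 2) * (cov E a X).card := by
      have h1 : ∑ x ∈ cov E a X, (a - 1) ≤ ∑ x ∈ cov E a X, dg E (cov E a X) x :=
        Finset.sum_le_sum fun x hx => by
          have := le_dg hsat hx
          omega
      rw [Finset.sum_const, smul_eq_mul] at h1
      have h2 : (((cov E a X).card * (a - 1) : ℕ) : ℝ) ≤ (ee E (cov E a X) : ℝ) := by
        unfold ee
        exact_mod_cast h1
      push_cast [Nat.cast_sub (by omega : 1 ≤ a)] at h2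
      have h3 : (0 : ℝ) ≤ ((cov E a X).card : ℝ) := by positivity
      nlinarith
    obtain ⟨y, hy, hyy⟩ := gr_ex (A := (a : ℝ) - 1) hlow
    have h1 := claim hs hi ha _ (cov E a X) rfl hc hsat y hy hyy.symm
    have hupp : (ee E (cov E a X) : ℝ) ≤
        (cov E a X).card * (((cov E a X).card : ℝ) - 1) := by
      have h1 : ∑ x ∈ cov E a X, dg E (cov E a X) x ≤ ∑ x ∈ cov E a X, ((cov E a X).card - 1) :=
        Finset.sum_le_sum fun x hx => by
          have := dg_le hi hx
          omega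
      rw [Finset.sum_const, smul_eq_mul] at h1
      have h0 : 1 ≤ (cov E a X).card := Finset.card_pos.2 hc
      have h2 : (ee E (cov E a X) : ℝ) ≤
          (((cov E a X).card * ((cov E a X).card - 1) : ℕ) : ℝ) := by
        unfold ee
        exact_mod_cast h1
      push_cast [Nat.cast_sub h0] at h2
      exact h2
    have haN : (a : ℝ) ≤ (cov E a X).card := by
      obtain ⟨x, hx⟩ := hc
      obtain ⟨K, hK, _, hKc, _⟩ := hsat x hx
      have h1 := Finset.card_le_card hK
      rw [hKc] at h1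
      exact_mod_cast h1
    have hyN : y ≤ (cov E a X).card := by
      refine gr_mono (A := (a : ℝ) - 1) (by linarith) (by linarith) ?_
      rw [hyy]
      nlinarith
    have h2 := th_chord (A := (a : ℝ) - 1) (by linarith) hy hyN hy1
    have e1 : (a : ℝ) - 1 + 1 = a := by ring
    have e2 : y * (y - ((a : ℝ) - 1)) + ((a : ℝ) - 1 - 1) * (cov E a X).card =
        (ee E (cov E a X) : ℝ) := by
      rw [hyy]
      ring
    rw [e1, e2] at h2
    refine le_trans ?_ (h2.trans h1)
    have h3 : (ee E (cov E a X) : ℝ) ≤ (ee E X : ℝ) := by exact_mod_cast ee_mono hC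
    have h4 : (a : ℝ) * ((ee E (cov E a X) : ℝ) - (y0 : ℝ) * ((y0 : ℝ) - 1)) /
        (2 * (y0 : ℝ) * ((y0 : ℝ) + 1) * ((y0 : ℝ) + 2)) ≤
        (a : ℝ) * ((ee E X : ℝ) - (y0 : ℝ) * ((y0 : ℝ) - 1)) /
        (2 * (y0 : ℝ) * ((y0 : ℝ) + 1) * ((y0 : ℝ) + 2)) := by
      apply div_le_div_of_nonneg_right _ hden.le
      apply mul_le_mul_of_nonneg_left _ (by positivity)
      linarith
    linarith
  · have hnot : ¬ HasK E a X := by
      rintro ⟨K, hK, hKc, hKC⟩
      apply hc
      have h1 := sub_cov hK hKc hKC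
      have h2 : K.Nonempty := by
        rw [← Finset.card_pos]
        omega
      exact h2.mono h1
    rw [rr_not hnot]
    have h1 : (a : ℝ) / ((y0 : ℝ) + 1) - (a : ℝ) * ((ee E X : ℝ) - (y0 : ℝ) * ((y0 : ℝ) - 1)) /
        (2 * (y0 : ℝ) * ((y0 : ℝ) + 1) * ((y0 : ℝ) + 2)) =
        (a * (3 * ((y0 : ℝ) * (y0 + 1))) - a * ee E X) /
          (2 * (y0 : ℝ) * ((y0 : ℝ) + 1) * ((y0 : ℝ) + 2)) := by
      have h2 : (y0 : ℝ) ≠ 0 := by linarith
      field_simp
      ring
    rw [h1, div_le_one hden]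
    have h2 : (3 : ℝ) * a ≤ 2 * (y0 + 2) := by exact_mod_cast hy0
    have h3 : (0 : ℝ) ≤ (a : ℝ) * ee E X := by positivity
    have h4 : (3 : ℝ) * a * ((y0 : ℝ) * (y0 + 1)) ≤ 2 * (y0 + 2) * ((y0 : ℝ) * (y0 + 1)) :=
      mul_le_mul_of_nonneg_right h2 (by positivity)
    nlinarith

end

/-! ### The link graphs -/

section
variable {n : ℕ}

/-- The link of `v`. -/
def lk (B : Finset (Finset (Fin n))) (v x y : Fin n) : Prop :=
  x ≠ y ∧ x ≠ v ∧ y ≠ v ∧ ({v, x, y} : Finset (Fin n)) ∈ B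

instance (B : Finset (Finset (Fin n))) (v : Fin n) : DecidableRel (lk B v) := fun x y => by
  unfold lk
  infer_instance

theorem lk_symm (B : Finset (Finset (Fin n))) (v : Fin n) : ∀ x y, lk B v x y → lk B v y x := by
  rintro x y ⟨h1, h2, h3, h4⟩
  refine ⟨Ne.symm h1, h3, h2, ?_⟩
  have h5 : ({v, y, x} : Finset (Fin n)) = {v, x, y} := by
    ext z
    simp only [Finset.mem_insert, Finset.mem_singleton]
    tauto
  rw [h5]
  exact h4

theorem lk_irrefl (B : Finset (Finset (Fin n))) (v : Fin n) : ∀ x, ¬ lk B v x x :=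
  fun _ h => h.1 rfl

theorem dg_lk (B : Finset (Finset (Fin n))) (v : Fin n) (X : Finset (Fin n)) (x : Fin n) :
    dg (lk B v) X x ≤ (B.filter fun T => v ∈ T ∧ x ∈ T).card := by
  unfold dg
  refine Finset.card_le_card_of_injOn (fun y => ({v, x, y} : Finset (Fin n))) ?_ ?_
  · intro y hy
    rw [Finset.mem_coe, Finset.mem_filter] at hy
    rw [Finset.mem_coe, Finset.mem_filter]
    exact ⟨hy.2.2.2.2, by simp, by simp⟩
  · intro y hy y' hy' h
    rw [Finset.mem_coe, Finset.mem_filter] at hy hy'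
    have h1 : y ∈ ({v, x, y'} : Finset (Fin n)) := by
      have h2 : ({v, x, y} : Finset (Fin n)) = {v, x, y'} := h
      rw [← h2]
      simp
    simp only [Finset.mem_insert, Finset.mem_singleton] at h1
    rcases h1 with h1 | h1 | h1
    · exact absurd h1 hy.2.2.2.1
    · exact absurd h1.symm hy.2.1
    · exact h1

theorem sum_ee (B : Finset (Finset (Fin n))) (hB : ∀ T ∈ B, T.card = 3) :
    ∑ v, ee (lk B v) (univ.erase v) ≤ 6 * B.card := by
  have h1 : ∀ v : Fin n, ee (lk B v) (univ.erase v) ≤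
      ∑ x ∈ univ.erase v, ∑ T ∈ B, if v ∈ T ∧ x ∈ T then 1 else 0 := by
    intro v
    unfold ee
    refine Finset.sum_le_sum fun x _ => ?_
    rw [← Finset.card_filter]
    exact dg_lk B v _ x
  refine (Finset.sum_le_sum fun v _ => h1 v).trans ?_
  have h2 : ∑ v : Fin n, ∑ x ∈ univ.erase v, ∑ T ∈ B, (if v ∈ T ∧ x ∈ T then 1 else 0) =
      ∑ T ∈ B, ∑ v : Fin n, ∑ x ∈ univ.erase v, (if v ∈ T ∧ x ∈ T then 1 else 0) := by
    rw [Finset.sum_comm (s := B)]
    exact Finset.sum_congr rfl fun v _ => Finset.sum_comm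
  have h3 : ∀ T ∈ B, ∑ v : Fin n, ∑ x ∈ univ.erase v, (if v ∈ T ∧ x ∈ T then 1 else 0) = 6 := by
    intro T hT
    have h4 : ∀ v : Fin n, ∑ x ∈ univ.erase v, (if v ∈ T ∧ x ∈ T then 1 else 0) =
        if v ∈ T then 2 else 0 := by
      intro v
      by_cases hv : v ∈ T
      · rw [if_pos hv]
        have h5 : ∀ x ∈ univ.erase v, (if v ∈ T ∧ x ∈ T then 1 else 0) = if x ∈ T then 1 else 0 := by
          intro x _
          by_cases hx : x ∈ T
          · rw [if_pos ⟨hv, hx⟩, if_pos hx]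
          · rw [if_neg (fun h => hx h.2), if_neg hx]
        rw [Finset.sum_congr rfl h5, ← Finset.card_filter]
        have h6 : (univ.erase v).filter (fun x => x ∈ T) = T.erase v := by
          ext x
          simp
        rw [h6, Finset.card_erase_of_mem hv, hB T hT]
      · rw [if_neg hv]
        exact Finset.sum_eq_zero fun x _ => if_neg fun h => hv h.1
    rw [Finset.sum_congr rfl fun v _ => h4 v, ← Finset.sum_filter]
    have h5 : (univ : Finset (Fin n)).filter (fun v => v ∈ T) = T := by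
      ext x
      simp
    rw [h5, Finset.sum_const, hB T hT]
    rfl
  rw [h2, Finset.sum_congr rfl h3, Finset.sum_const, smul_eq_mul, mul_comm]

end

/-! ### The lower bound -/

/-- The lower bound for three-uniform shadows. -/
theorem lower3 {n s t q : ℕ} (hs : 6 ≤ s) (hst : s ≤ t) (hq : 3 * (s - 1) ≤ 2 * (q + 1)) :
    (n : ℝ) * ((q : ℝ) * (q - 1) / 2) - ((t : ℝ) - 1) * ((q - 1) * (q : ℝ) * (q + 1)) /
      (3 * ((s : ℝ) - 1)) ≤ (f n 3 s t : ℝ) := by
  classical
  obtain ⟨𝒜, h𝒜, hf⟩ := f_spec (n := n) (r := 3) hst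
  obtain ⟨B, hBdef⟩ : ∃ B, B = lowerShadow 3 𝒜 := ⟨_, rfl⟩
  have hB3 : ∀ T ∈ B, T.card = 3 := by
    intro T hT
    rw [hBdef] at hT
    unfold lowerShadow at hT
    exact (Finset.mem_powersetCard.1 (Finset.mem_filter.1 hT).1).2
  obtain ⟨a, rfl⟩ : ∃ a, s = a + 1 := ⟨s - 1, by omega⟩
  rw [Nat.add_sub_cancel] at hq
  have ha : 5 ≤ a := by omega
  obtain ⟨y0, rfl⟩ : ∃ y0, q = y0 + 1 := ⟨q - 1, by omega⟩
  have hq' : 3 * a ≤ 2 * (y0 + 2) := by omega
  -- the free sets
  let fr : Finset (Fin n) → Prop := fun F => ∀ K ⊆ F, K.card = a + 1 →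
    ¬ ∀ T ⊆ K, T.card = 3 → T ∈ B
  have hfr0 : fr ∅ := by
    intro K hK hKc
    rw [Finset.subset_empty] at hK
    subst hK
    rw [Finset.card_empty] at hKc
    omega
  have hins : ∀ (v : Fin n) (F X : Finset (Fin n)), v ∉ X → F ⊆ X → fr F →
      ¬ HasK (lk B v) a X → fr (insert v F) := by
    intro v F X hv hFX hF hQ K hK hKc hall
    by_cases hvK : v ∈ K
    · apply hQ
      have hsub : K.erase v ⊆ X := by
        intro x hx
        rw [Finset.mem_erase] at hx
        have h1 := hK hx.2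
        rw [Finset.mem_insert] at h1
        exact hFX (h1.resolve_left hx.1)
      refine ⟨K.erase v, hsub, ?_, ?_⟩
      · rw [Finset.card_erase_of_mem hvK, hKc, Nat.add_sub_cancel]
      · intro x hx y hy hxy
        rw [Finset.mem_erase] at hx hy
        refine ⟨hxy, hx.1, hy.1, hall _ ?_ ?_⟩
        · intro z hz
          simp only [Finset.mem_insert, Finset.mem_singleton] at hz
          rcases hz with rfl | rfl | rfl
          · exact hvK
          · exact hx.2
          · exact hy.2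
        · rw [Finset.card_eq_three]
          exact ⟨v, x, y, Ne.symm hx.1, Ne.symm hy.1, hxy, rfl⟩
    · refine hF K ?_ hKc hall
      intro x hx
      have h1 := hK hx
      rw [Finset.mem_insert] at h1
      rcases h1 with rfl | h1
      · exact absurd hx hvK
      · exact h1
  obtain ⟨F, _, hF, hsum⟩ := exists_free (Q := fun v => HasK (lk B v) a)
    (fun v => hasK_empty (by omega))
    (fun v X Y hXY => fun ⟨K, hK, hc, hC⟩ => ⟨K, hK.trans hXY, hc, hC⟩) hfr0 hins _ univ rfl
  -- the free set is small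
  have hFt : F.card ≤ t - 1 := by
    by_contra hc
    push Not at hc
    have h1 : t ≤ F.card := by omega
    obtain ⟨C, hCF, hCt⟩ := Finset.exists_subset_card_eq h1
    obtain ⟨A, hA, hAC⟩ := h𝒜.2 C hCt
    refine hF A (hAC.trans hCF) (h𝒜.1 A hA) fun T hT hTc => ?_
    rw [hBdef]
    unfold lowerShadow
    rw [Finset.mem_filter, Finset.mem_powersetCard]
    exact ⟨⟨Finset.subset_univ T, hTc⟩, A, hA, hT⟩
  have hFtR : (F.card : ℝ) ≤ (t : ℝ) - 1 := by
    have h1 : (F.card : ℝ) ≤ ((t - 1 : ℕ) : ℝ) := by exact_mod_cast hFt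
    rw [Nat.cast_sub (by omega)] at h1
    exact_mod_cast h1
  have hlow : ∑ v : Fin n, ((a : ℝ) / ((y0 : ℝ) + 1) - (a : ℝ) *
      ((ee (lk B v) (univ.erase v) : ℝ) - (y0 : ℝ) * ((y0 : ℝ) - 1)) /
      (2 * (y0 : ℝ) * ((y0 : ℝ) + 1) * ((y0 : ℝ) + 2))) ≤ (t : ℝ) - 1 := by
    refine le_trans ?_ (hsum.trans hFtR)
    exact Finset.sum_le_sum fun v _ => th_vertex (lk_symm B v) (lk_irrefl B v) ha hq' _
  have hee : ∑ v : Fin n, (ee (lk B v) (univ.erase v) : ℝ) ≤ 6 * (B.card : ℝ) := by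
    exact_mod_cast sum_ee B hB3
  have hy1 : (1 : ℝ) ≤ (y0 : ℝ) := by
    have : 1 ≤ y0 := by omega
    exact_mod_cast this
  have haR : (0 : ℝ) < a := by
    have : 0 < a := by omega
    exact_mod_cast this
  obtain ⟨Y, hY⟩ : ∃ Y : ℝ, Y = (y0 : ℝ) := ⟨_, rfl⟩
  rw [← hY] at hlow hy1
  have hYp : 0 < Y := by linarith
  have hcard : ((univ : Finset (Fin n)).card : ℝ) = n := by
    rw [Finset.card_univ, Fintype.card_fin]
  have h1 : (n : ℝ) * (a / (Y + 1)) - a * (6 * (B.card : ℝ) - n * (Y * (Y - 1))) /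
      (2 * Y * (Y + 1) * (Y + 2)) ≤ (t : ℝ) - 1 := by
    refine le_trans ?_ hlow
    rw [Finset.sum_sub_distrib, Finset.sum_const, nsmul_eq_mul, hcard, ← Finset.sum_div,
      ← Finset.mul_sum, Finset.sum_sub_distrib, Finset.sum_const, nsmul_eq_mul, hcard]
    have h2 : a * (∑ v : Fin n, (ee (lk B v) (univ.erase v) : ℝ) - n * (Y * (Y - 1))) /
        (2 * Y * (Y + 1) * (Y + 2)) ≤ a * (6 * (B.card : ℝ) - n * (Y * (Y - 1))) /
        (2 * Y * (Y + 1) * (Y + 2)) := by
      apply div_le_div_of_nonneg_right _ (by positivity)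
      apply mul_le_mul_of_nonneg_left _ haR.le
      linarith
    linarith
  have h2 : (n : ℝ) * (((Y + 1)) * (Y + 1 - 1) / 2) - ((t : ℝ) - 1) *
      ((Y + 1 - 1) * (Y + 1) * (Y + 1 + 1)) / (3 * ((a : ℝ) + 1 - 1)) ≤ (B.card : ℝ) := by
    have h3 : (B.card : ℝ) - ((n : ℝ) * (((Y + 1)) * (Y + 1 - 1) / 2) - ((t : ℝ) - 1) *
        ((Y + 1 - 1) * (Y + 1) * (Y + 1 + 1)) / (3 * ((a : ℝ) + 1 - 1))) =
        (Y * (Y + 1) * (Y + 2)) / (3 * a) * (((t : ℝ) - 1) - ((n : ℝ) * (a / (Y + 1)) -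
          a * (6 * (B.card : ℝ) - n * (Y * (Y - 1))) / (2 * Y * (Y + 1) * (Y + 2)))) := by
      have e1 : (a : ℝ) + 1 - 1 = a := by ring
      rw [e1]
      field_simp
      ring
    have h4 : 0 ≤ (Y * (Y + 1) * (Y + 2)) / (3 * a) * (((t : ℝ) - 1) - ((n : ℝ) * (a / (Y + 1)) -
          a * (6 * (B.card : ℝ) - n * (Y * (Y - 1))) / (2 * Y * (Y + 1) * (Y + 2)))) := by
      apply mul_nonneg (by positivity)
      linarith
    linarith
  rw [hf, ← hBdef]
  push_cast
  rw [← hY]
  exact h2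

/-! ### The exact value -/

theorem choose_two_real (q : ℕ) : ((q.choose 2 : ℕ) : ℝ) = (q : ℝ) * (q - 1) / 2 :=
  Nat.cast_choose_two ℝ q

theorem choose_three_real (q : ℕ) :
    (((q + 1).choose 3 : ℕ) : ℝ) = ((q : ℝ) - 1) * q * (q + 1) / 6 := by
  induction q with
  | zero => norm_num
  | succ q ih =>
    rw [Nat.choose_succ_succ' (q + 1) 2, Nat.cast_add, ih, choose_two_real]
    push_cast
    ring

/-- The Turan type theorem for three-uniform shadows. -/
theorem exact3 {n s k : ℕ} (hs : 6 ≤ s) (hk : 1 ≤ k) (hn : 3 * (s - 1) ≤ 2 * (n / k + 1)) :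
    f n 3 s (k * (s - 1) + 1) =
      (k - n % k) * (n / k).choose 3 + (n % k) * (n / k + 1).choose 3 := by
  have hρ : n % k < k := Nat.mod_lt n (by omega)
  have hdm : k * (n / k) + n % k = n := Nat.div_add_mod n k
  apply le_antisymm
  · -- blocks
    have hsum : ∀ g : ℕ → ℕ, ∑ i : Fin k, g (if (i : ℕ) < n % k then n / k + 1 else n / k) =
        (k - n % k) * g (n / k) + (n % k) * g (n / k + 1) := by
      intro g
      rw [Fin.sum_univ_eq_sum_range (fun i => g (if i < n % k then n / k + 1 else n / k)) k]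
      have h1 : ∀ i ∈ Finset.range k, g (if i < n % k then n / k + 1 else n / k) =
          if i < n % k then g (n / k + 1) else g (n / k) := by
        intro i _
        split_ifs
        · rfl
        · rfl
      rw [Finset.sum_congr rfl h1, Finset.sum_ite, Finset.sum_const, Finset.sum_const, smul_eq_mul,
        smul_eq_mul]
      have h2 : ((Finset.range k).filter fun i => i < n % k) = Finset.range (n % k) := by
        ext i
        rw [Finset.mem_filter, Finset.mem_range, Finset.mem_range]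
        omega
      have h3 : ((Finset.range k).filter fun i => ¬ i < n % k).card = k - n % k := by
        have h4 := Finset.card_filter_add_card_filter_not (s := Finset.range k)
          (fun i => i < n % k)
        rw [h2, Finset.card_range, Finset.card_range] at h4
        omega
      rw [h2, h3, Finset.card_range, add_comm]
    have h1 : ∑ i : Fin k, (if (i : ℕ) < n % k then n / k + 1 else n / k) = n := by
      have h2 := hsum id
      simp only [id] at h2
      rw [h2]
      have h3 : (k - n % k) * (n / k) + n % k * (n / k + 1) =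
          ((k - n % k) + n % k) * (n / k) + n % k := by ring
      rw [h3, Nat.sub_add_cancel hρ.le]
      exact hdm
    have h2 := f_le_blocks (n := n) (r := 3) (s := s) (t := k * (s - 1) + 1)
      (fun i : Fin k => if (i : ℕ) < n % k then n / k + 1 else n / k) (le_of_eq h1)
      (by rw [h1]; omega) (by omega)
    rw [hsum (fun x => x.choose 3)] at h2
    exact h2
  · have hst : s ≤ k * (s - 1) + 1 := by
      have := Nat.le_mul_of_pos_left (s - 1) hk
      omega
    have h1 := lower3 (n := n) hs hst hn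
    have h2 : ((k - n % k : ℕ) : ℝ) = (k : ℝ) - (n % k : ℕ) := Nat.cast_sub hρ.le
    have h3 : (n : ℝ) = (k : ℝ) * (n / k : ℕ) + (n % k : ℕ) := by exact_mod_cast hdm.symm
    have hsR : (0 : ℝ) < (s : ℝ) - 1 := by
      have : (6 : ℝ) ≤ s := by exact_mod_cast hs
      linarith
    have hq1 : 1 ≤ n / k := by omega
    obtain ⟨m, hm⟩ : ∃ m, n / k = m + 1 := ⟨n / k - 1, by omega⟩
    have h4 : (((k - n % k) * (n / k).choose 3 + (n % k) * (n / k + 1).choose 3 : ℕ) : ℝ) ≤
        (f n 3 s (k * (s - 1) + 1) : ℝ) := by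
      refine le_trans (le_of_eq ?_) h1
      rw [hm] at h3 ⊢
      push_cast [Nat.cast_sub (by omega : 1 ≤ s)]
      rw [h2, choose_three_real, choose_three_real]
      push_cast at h3 ⊢
      rw [h3]
      field_simp
      ring
    exact_mod_cast h4

end Pool.Agent.Lib.MP_455133_co.TR
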