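import Mathlib

/-!
The expected arrival time of a monotone property, by its recursion, and a set without complete
subsets of large size.
-/

namespace Pool.Agent.Lib.MP_455133_co.TR

open Finset

variable {V : Type*} [DecidableEq V]

open Classical in
/-- The recursion with fuel. -/
noncomputable def rrn (Q : Finset V → Prop) : ℕ → Finset V → ℝ
  | 0, _ => 1
  | k + 1, X => if Q X then (∑ u ∈ X, rrn Q k (X.erase u)) / ((X.card : ℝ) + 1) else 1

/-- The expected time at which the vertices of `X` which have arrived have the property `Q` (equal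
to `1` if `X` does not have it). -/
noncomputable def rr (Q : Finset V → Prop) (X : Finset V) : ℝ := rrn Q X.card X

theorem rr_not {Q : Finset V → Prop} {X : Finset V} (h : ¬ Q X) : rr Q X = 1 := by
  unfold rr
  cases hk : X.card with
  | zero => rfl
  | succ k =>
    unfold rrn
    rw [if_neg h]

theorem rr_rec {Q : Finset V → Prop} {X : Finset V} (h0 : ¬ Q ∅) (h : Q X) :
    ((X.card : ℝ) + 1) * rr Q X = ∑ u ∈ X, rr Q (X.erase u) := by
  have hne : X ≠ ∅ := by
    rintro rfl
    exact h0 h
  obtain ⟨k, hk⟩ : ∃ k, X.card = k + 1 := by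
    have := Finset.card_ne_zero.2 (Finset.nonempty_iff_ne_empty.2 hne)
    exact ⟨X.card - 1, by omega⟩
  have h1 : rr Q X = (∑ u ∈ X, rrn Q k (X.erase u)) / ((X.card : ℝ) + 1) := by
    classical
    unfold rr
    rw [hk]
    show (if Q X then (∑ u ∈ X, rrn Q k (X.erase u)) / ((X.card : ℝ) + 1) else 1) = _
    rw [if_pos h, hk]
  have h2 : ∀ u ∈ X, rrn Q k (X.erase u) = rr Q (X.erase u) := by
    intro u hu
    unfold rr
    rw [Finset.card_erase_of_mem hu, hk, Nat.add_sub_cancel]
  rw [h1, Finset.sum_congr rfl h2]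
  have h3 : ((X.card : ℝ) + 1) ≠ 0 := by positivity
  field_simp

theorem rr_irrel {Q : Finset V → Prop} (h0 : ¬ Q ∅) (d : V) : ∀ (m : ℕ) (X : Finset V),
    X.card = m → (∀ Y ⊆ X, Q Y ↔ Q (Y.erase d)) → rr Q X = rr Q (X.erase d) := by
  intro m
  induction m with
  | zero =>
    intro X hX _
    rw [Finset.card_eq_zero] at hX
    subst hX
    rfl
  | succ k ih =>
    intro X hX h
    by_cases hd : d ∈ X
    swap
    · rw [Finset.erase_eq_of_notMem hd]
    by_cases hQ : Q X
    swap
    · have hQ' : ¬ Q (X.erase d) := fun h1 => hQ ((h X (Finset.Subset.refl X)).2 h1)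
      rw [rr_not hQ, rr_not hQ']
    have hQ' : Q (X.erase d) := (h X (Finset.Subset.refl X)).1 hQ
    have e1 := rr_rec h0 hQ
    have e2 := rr_rec h0 hQ'
    have e3 : ∑ u ∈ X, rr Q (X.erase u) = rr Q (X.erase d) + ∑ u ∈ X.erase d, rr Q (X.erase u) :=
      (Finset.add_sum_erase X (fun u => rr Q (X.erase u)) hd).symm
    have e4 : ∑ u ∈ X.erase d, rr Q (X.erase u) = ∑ u ∈ X.erase d, rr Q ((X.erase d).erase u) := by
      refine Finset.sum_congr rfl fun u hu => ?_
      have hu' : u ∈ X := Finset.mem_of_mem_erase hu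
      rw [ih (X.erase u) (by rw [Finset.card_erase_of_mem hu', hX, Nat.add_sub_cancel])
        (fun Y hY => h Y (hY.trans (Finset.erase_subset u X))), Finset.erase_right_comm]
    have e5 : ((X.erase d).card : ℝ) + 1 = X.card := by
      rw [Finset.card_erase_of_mem hd, hX, Nat.add_sub_cancel]
      push_cast
      ring
    rw [e3, e4, ← e2, e5] at e1
    have h3 : ((X.card : ℝ) + 1) ≠ 0 := by positivity
    have e6 : ((X.card : ℝ) + 1) * rr Q X = ((X.card : ℝ) + 1) * rr Q (X.erase d) := by
      rw [e1]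
      ring
    exact mul_left_cancel₀ h3 e6

theorem rr_sub {Q : Finset V → Prop} (h0 : ¬ Q ∅) {C : Finset V} : ∀ (m : ℕ) (X : Finset V),
    C ⊆ X → (X \ C).card = m → (∀ Y ⊆ X, Q Y ↔ Q (Y ∩ C)) → rr Q X = rr Q C := by
  intro m
  induction m with
  | zero =>
    intro X hC hX _
    rw [Finset.card_eq_zero, Finset.sdiff_eq_empty_iff_subset] at hX
    rw [Finset.Subset.antisymm hX hC]
  | succ k ih =>
    intro X hC hX h
    have hne : (X \ C).Nonempty := by
      rw [← Finset.card_pos, hX]
      exact Nat.succ_pos k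
    obtain ⟨d, hd⟩ := hne
    rw [Finset.mem_sdiff] at hd
    have hC' : C ⊆ X.erase d := fun x hx => Finset.mem_erase.2
      ⟨fun h1 => hd.2 (h1 ▸ hx), hC hx⟩
    have h1 : ∀ Y : Finset V, Y.erase d ∩ C = Y ∩ C := by
      intro Y
      ext x
      rw [Finset.mem_inter, Finset.mem_inter, Finset.mem_erase]
      constructor
      · rintro ⟨⟨_, h2⟩, h3⟩
        exact ⟨h2, h3⟩
      · rintro ⟨h2, h3⟩
        exact ⟨⟨fun h4 => hd.2 (h4 ▸ h3), h2⟩, h3⟩
    rw [rr_irrel h0 d _ X rfl (fun Y hY => by
      rw [h Y hY, h (Y.erase d) ((Finset.erase_subset d Y).trans hY), h1])]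
    refine ih (X.erase d) hC' ?_ fun Y hY => h Y (hY.trans (Finset.erase_subset d X))
    have h2 : X.erase d \ C = (X \ C).erase d := by
      ext x
      simp only [Finset.mem_sdiff, Finset.mem_erase]
      tauto
    rw [h2, Finset.card_erase_of_mem (Finset.mem_sdiff.2 hd), hX, Nat.add_sub_cancel]

/-- A free set which is at least as large as the sum of the expected arrival times. -/
theorem exists_free {Q : V → Finset V → Prop} (h0 : ∀ v, ¬ Q v ∅)
    (hm : ∀ v, ∀ X Y : Finset V, X ⊆ Y → Q v X → Q v Y) {fr : Finset V → Prop} (he : fr ∅)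
    (hi : ∀ (v : V) (F X : Finset V), v ∉ X → F ⊆ X → fr F → ¬ Q v X → fr (insert v F)) :
    ∀ (m : ℕ) (Y : Finset V), Y.card = m →
      ∃ F ⊆ Y, fr F ∧ ∑ v ∈ Y, rr (Q v) (Y.erase v) ≤ (F.card : ℝ) := by
  classical
  intro m
  induction m with
  | zero =>
    intro Y hY
    rw [Finset.card_eq_zero] at hY
    subst hY
    exact ⟨∅, Finset.Subset.refl _, he, by simp⟩
  | succ k ih =>
    intro Y hY
    have hYne : Y.Nonempty := by
      rw [← Finset.card_pos, hY]
      exact Nat.succ_pos k
    have h1 : ∀ u ∈ Y, ∃ F ⊆ Y, fr F ∧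
        ∑ v ∈ Y.erase u, rr (Q v) ((Y.erase u).erase v) + (if Q u (Y.erase u) then 0 else 1) ≤
          (F.card : ℝ) := by
      intro u hu
      obtain ⟨F, hF, hfr, hle⟩ := ih (Y.erase u) (by
        rw [Finset.card_erase_of_mem hu, hY, Nat.add_sub_cancel])
      by_cases hq : Q u (Y.erase u)
      · refine ⟨F, hF.trans (Finset.erase_subset u Y), hfr, ?_⟩
        rw [if_pos hq, add_zero]
        exact hle
      · have hu' : u ∉ F := fun h2 => Finset.notMem_erase u Y (hF h2)
        refine ⟨insert u F, ?_, hi u F _ (Finset.notMem_erase u Y) hF hfr hq, ?_⟩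
        · intro x hx
          rcases Finset.mem_insert.1 hx with rfl | hx
          · exact hu
          · exact Finset.mem_of_mem_erase (hF hx)
        · rw [if_neg hq, Finset.card_insert_of_notMem hu']
          push_cast
          linarith
    choose! F hF using h1
    have h2 : ∑ _u ∈ Y, (∑ v ∈ Y, rr (Q v) (Y.erase v)) ≤ ∑ u ∈ Y, ((F u).card : ℝ) := by
      have h3 : ∑ u ∈ Y, (∑ v ∈ Y.erase u, rr (Q v) ((Y.erase u).erase v) +
          (if Q u (Y.erase u) then (0 : ℝ) else 1)) ≤ ∑ u ∈ Y, ((F u).card : ℝ) :=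
        Finset.sum_le_sum fun u hu => (hF u hu).2.2
      refine le_trans (le_of_eq ?_) h3
      rw [Finset.sum_add_distrib]
      have h4 : ∑ u ∈ Y, ∑ v ∈ Y.erase u, rr (Q v) ((Y.erase u).erase v) =
          ∑ v ∈ Y, ∑ u ∈ Y.erase v, rr (Q v) ((Y.erase v).erase u) := by
        have h5 : ∀ (g : V → V → ℝ), ∑ u ∈ Y, ∑ v ∈ Y.erase u, g u v =
            ∑ u ∈ Y, ∑ v ∈ Y, if v = u then 0 else g u v := by
          intro g
          refine Finset.sum_congr rfl fun u hu => ?_
          rw [← Finset.add_sum_erase Y (fun v => if v = u then 0 else g u v) hu, if_pos rfl,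
            zero_add]
          refine Finset.sum_congr rfl fun v hv => ?_
          rw [if_neg (Finset.ne_of_mem_erase hv)]
        rw [h5, h5, Finset.sum_comm]
        refine Finset.sum_congr rfl fun u _ => Finset.sum_congr rfl fun v _ => ?_
        by_cases h6 : u = v
        · rw [if_pos h6, if_pos h6.symm]
        · rw [if_neg h6, if_neg (fun h7 => h6 h7.symm), Finset.erase_right_comm]
      rw [h4, ← Finset.sum_add_distrib, Finset.sum_const, nsmul_eq_mul, Finset.mul_sum]
      refine Finset.sum_congr rfl fun v hv => ?_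
      have hcard : ((Y.erase v).card : ℝ) + 1 = Y.card := by
        rw [Finset.card_erase_of_mem hv, hY, Nat.add_sub_cancel]
        push_cast
        ring
      by_cases hq : Q v (Y.erase v)
      · rw [if_pos hq, add_zero, ← rr_rec (h0 v) hq, hcard]
      · rw [if_neg hq, rr_not hq, mul_one]
        have h6 : ∀ u ∈ Y.erase v, rr (Q v) ((Y.erase v).erase u) = 1 := fun u _ =>
          rr_not fun h7 => hq (hm v _ _ (Finset.erase_subset u _) h7)
        rw [Finset.sum_congr rfl h6, Finset.sum_const, nsmul_eq_mul, mul_one, hcard]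
    obtain ⟨u, hu, hle⟩ := Finset.exists_le_of_sum_le hYne h2
    exact ⟨F u, (hF u hu).1, (hF u hu).2.1, hle⟩

end Pool.Agent.Lib.MP_455133_co.TR
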